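import Pool.Agent.helper35.OT.Spec

set_option autoImplicit false

namespace Pool.Agent.helper35.OT

open Finset

private lemma DAT_castS (c1 c2 : ℕ) (r : ℕ → ℕ) (n : ℕ) :
    ((ua c1 c2 r (n + 1) : ℤ) : ℝ) = -(if n = 0 then (c1 : ℝ) else 0) - c2 * r n := by
  simp only [ua]
  split_ifs <;> push_cast <;> ring

private lemma DAT_hs (c1 c2 : ℕ) (r : ℕ → ℕ) (ρ : ℝ) (hs : SM r ρ) :
    HasSum (fun n => ((ua c1 c2 r (n + 1) : ℤ) : ℝ) * ρ ^ (n + 1)) (-(c1 * ρ) - c2 * ρ * SS r ρ) := by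
  have ha : HasSum (fun n : ℕ => if n = 0 then (c1 : ℝ) * ρ else 0) (c1 * ρ) := hasSum_ite_eq 0 _
  have hb : HasSum (fun n => (r n : ℝ) * ρ ^ n) (SS r ρ) := Summable.hasSum hs
  have h := ha.neg.sub (hb.mul_left ((c2 : ℝ) * ρ))
  have he : (fun n => ((ua c1 c2 r (n + 1) : ℤ) : ℝ) * ρ ^ (n + 1)) =
      fun n : ℕ => -(if n = 0 then (c1 : ℝ) * ρ else 0) - (c2 : ℝ) * ρ * ((r n : ℝ) * ρ ^ n) := by
    funext n
    rw [DAT_castS]
    by_cases hn : n = 0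
    · subst hn
      simp
      ring
    · simp only [hn, if_false]
      ring
  rw [he]
  exact h

private lemma DAT_ld (c0 c1 c2 : ℤ) : (Lam c0 c1 c2).natDegree ≤ 2 := by
  unfold Lam
  compute_degree

theorem DAT (hUS : US_stmt) (hDN : DN_stmt) : DAT_stmt := by
  intro c0 c1 c2 r ρ hR h0 h2 hp h1 hs hz
  have hS := DAT_hs c1 c2 r ρ hs
  have hval : -((c1 : ℝ) * ρ) - c2 * ρ * SS r ρ = -1 := by linarith
  rw [hval] at hS
  have h00 : ((ua c1 c2 r 0 : ℤ) : ℝ) = 1 := by simp [ua]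
  have hT : HasSum (fun n => ((ua c1 c2 r n : ℤ) : ℝ) * ρ ^ n) 0 := by
    rw [← hasSum_nat_add_iff' 1]
    simpa [h00] using hS
  refine ⟨h2, DAT_ld _ _ _, hUS c0 c1 c2 r hR, hp, h1, ?_, hT.tsum_eq, ?_⟩
  · rw [← summable_nat_add_iff 1]
    have h := hS.summable.neg
    refine h.congr (fun n => ?_)
    have hle : ((ua c1 c2 r (n + 1) : ℤ) : ℝ) ≤ 0 := by
      rw [DAT_castS]
      have : (0 : ℝ) ≤ c2 * r n := by positivity
      have h3 : (0 : ℝ) ≤ if n = 0 then (c1 : ℝ) else 0 := by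
        split_ifs <;> positivity
      linarith
    rw [abs_of_nonpos hle]
    ring
  · exact ne_of_lt (hDN c0 c1 c2 r ρ h0 h2 hp h1 hs hz)

end Pool.Agent.helper35.OT
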